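import Pool.Agent.Lib_helper57.MinHomeo.Defs

open Set Metric Topology Filter

namespace Pool.Agent.MinHomeo

section Frozen

variable {M : Type} [MetricSpace M] [CompactSpace M]

/-- A sequence of maps with geometric steps has a continuous uniform limit. -/
theorem frozen_lim (φ : ℕ → M → M) (κ₀ : ℝ) (hc : ∀ k, Continuous (φ k))
    (hd : ∀ k x, dist (φ (k + 1) x) (φ k x) ≤ κ₀ * (1 / 2) ^ k) :
    ∃ F : M → M, Continuous F ∧ TendstoUniformly φ F atTop := by
  have hcs : ∀ x, CauchySeq fun k => φ k x := by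
    intro x
    refine cauchySeq_of_le_geometric (1 / 2) κ₀ (by norm_num) ?_
    intro k
    rw [dist_comm]
    exact hd k x
  have hlim : ∀ x, ∃ y, Tendsto (fun k => φ k x) atTop (𝓝 y) := fun x =>
    cauchySeq_tendsto_of_complete (hcs x)
  choose F hF using hlim
  have hu : TendstoUniformly φ F atTop := by
    rw [Metric.tendstoUniformly_iff]
    intro ε hε
    have h1 : Tendsto (fun k : ℕ => κ₀ * (1 / 2) ^ k / (1 - 1 / 2)) atTop (𝓝 0) := by
      have h2 : Tendsto (fun k : ℕ => ((1 : ℝ) / 2) ^ k) atTop (𝓝 0) :=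
        tendsto_pow_atTop_nhds_zero_of_lt_one (by norm_num) (by norm_num)
      have h3 := (h2.const_mul κ₀).div_const (1 - 1 / 2)
      simpa using h3
    have h4 := h1.eventually (gt_mem_nhds hε)
    filter_upwards [h4] with k hk
    intro x
    rw [dist_comm]
    refine lt_of_le_of_lt ?_ hk
    exact dist_le_of_le_geometric_of_tendsto (1 / 2) κ₀ (by norm_num)
      (fun n => by rw [dist_comm]; exact hd n x) (hF x) k
  exact ⟨F, hu.continuous (Frequently.of_forall hc), hu⟩

omit [CompactSpace M] in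
/-- Iterates of uniformly convergent maps converge. -/
theorem frozen_iter (φ : ℕ → M → M) (F : M → M) (hF : Continuous F)
    (hu : TendstoUniformly φ F atTop) (x : M) (a : ℕ) :
    Tendsto (fun k => (φ k)^[a] x) atTop (𝓝 (F^[a] x)) := by
  induction a with
  | zero => simp
  | succ a ih =>
    simp only [Function.iterate_succ_apply']
    exact hu.tendsto_comp hF.continuousAt ih

theorem frozen (h : Step_Stmt) : Frozen_Stmt := by
  intro M _ _ _ Rc e hne hsymm hA hB
  classical
  obtain ⟨f0, hf0⟩ := hne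
  -- the targets
  have : Nonempty M := ⟨e⟩
  let d : ℕ → M := TopologicalSpace.denseSeq M
  have hdense : DenseRange d := TopologicalSpace.denseRange_denseSeq M
  let U : ℕ → Set M := fun k =>
    ball (d (Nat.unpair (Nat.unpair k).1).1) (1 / ((Nat.unpair (Nat.unpair k).1).2 + 1 : ℝ))
  have hUo : ∀ k, IsOpen (U k) := fun k => isOpen_ball
  have hUn : ∀ k, (U k).Nonempty := fun k => ⟨_, mem_ball_self (by positivity)⟩
  -- the first stage
  let κ₀ : ℝ := diam (univ : Set M) + 1
  have hκ₀ : 0 < κ₀ := by have := diam_nonneg (s := (univ : Set M)); simp only [κ₀]; linarith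
  have hball : ∀ x : M, x ∈ ball e κ₀ := by
    intro x
    rw [mem_ball]
    have : dist x e ≤ diam (univ : Set M) :=
      dist_le_diam_of_mem isCompact_univ.isBounded (mem_univ x) (mem_univ e)
    simp only [κ₀]; linarith
  let s0 : Stage Rc e :=
    { f := f0, O := univ, κ := κ₀, cs := [], hf := hf0, hO := isOpen_univ,
      hOc := isPreconnected_univ, heO := mem_univ _, hfeO := mem_univ _, hκ := hκ₀,
      hOκ := fun x _ => hball x, hOκ' := fun x _ => hball x,
      hc := fun c hc => by simp at hc }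
  -- the steps
  have hstep := fun (s : Stage Rc e) (k : ℕ) => h M Rc e hsymm hA hB s (U k) (hUo k) (hUn k)
  choose nx cn hcs hcK hcU hκ hd hd' using hstep
  let s : ℕ → Stage Rc e := fun k => Nat.rec s0 (fun k s => nx s k) k
  have hs : ∀ k, s (k + 1) = nx (s k) k := fun k => rfl
  have hκle : ∀ k, (s k).κ ≤ κ₀ * (1 / 2) ^ k := by
    intro k
    induction k with
    | zero => simp [s, s0]
    | succ k ih =>
      rw [hs, pow_succ]
      have := hκ (s k) k
      linarith
  have hd1 : ∀ k x, dist ((s (k + 1)).f x) ((s k).f x) ≤ (6 * κ₀) * (1 / 2) ^ k := by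
    intro k x
    rw [hs]
    have h1 := hd (s k) k x
    have h2 := hκle k
    nlinarith
  have hd2 : ∀ k x, dist ((s (k + 1)).f.symm x) ((s k).f.symm x) ≤ (6 * κ₀) * (1 / 2) ^ k := by
    intro k x
    rw [hs]
    have h1 := hd' (s k) k x
    have h2 := hκle k
    nlinarith
  obtain ⟨F, hFc, hFu⟩ := frozen_lim (fun k => ⇑(s k).f) (6 * κ₀)
    (fun k => (s k).f.continuous) hd1
  obtain ⟨G, hGc, hGu⟩ := frozen_lim (fun k => ⇑(s k).f.symm) (6 * κ₀)
    (fun k => (s k).f.symm.continuous) hd2
  have hFG : ∀ x, F (G x) = x := by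
    intro x
    have h1 : Tendsto (fun k => (s k).f ((s k).f.symm x)) atTop (𝓝 (F (G x))) :=
      hFu.tendsto_comp hFc.continuousAt (hGu.tendsto_at x)
    simp only [Homeomorph.apply_symm_apply] at h1
    exact tendsto_nhds_unique h1 tendsto_const_nhds |>.symm ▸ rfl
  have hGF : ∀ x, G (F x) = x := by
    intro x
    have h1 : Tendsto (fun k => (s k).f.symm ((s k).f x)) atTop (𝓝 (G (F x))) :=
      hGu.tendsto_comp hGc.continuousAt (hFu.tendsto_at x)
    simp only [Homeomorph.symm_apply_apply] at h1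
    exact tendsto_nhds_unique h1 tendsto_const_nhds |>.symm ▸ rfl
  let f : M ≃ₜ M :=
    { toFun := F, invFun := G, left_inv := hGF, right_inv := hFG,
      continuous_toFun := hFc, continuous_invFun := hGc }
  have hκ0 : Tendsto (fun k => (s k).κ) atTop (𝓝 0) := by
    have h2 : Tendsto (fun k : ℕ => κ₀ * ((1 : ℝ) / 2) ^ k) atTop (𝓝 0) := by
      simpa using (tendsto_pow_atTop_nhds_zero_of_lt_one (by norm_num : (0:ℝ) ≤ 1 / 2)
        (by norm_num)).const_mul κ₀
    exact squeeze_zero (fun k => (s k).hκ.le) hκle h2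
  refine ⟨f, ?_, ?_⟩
  · -- f e = e
    have h1 : Tendsto (fun k => (s k).f e) atTop (𝓝 (F e)) := hFu.tendsto_at e
    have h2 : Tendsto (fun k => (s k).f e) atTop (𝓝 e) := by
      rw [tendsto_iff_dist_tendsto_zero]
      exact squeeze_zero (fun k => dist_nonneg)
        (fun k => (mem_ball.1 ((s k).hOκ (s k).hfeO)).le) hκ0
    exact tendsto_nhds_unique h1 h2
  · intro x hx V hV hVn
    by_contra hcon
    push Not at hcon
    -- choose the target
    obtain ⟨y, hy⟩ := hVn
    obtain ⟨r, hr, hrV⟩ := Metric.isOpen_iff.1 hV y hy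
    obtain ⟨j, hj⟩ := exists_nat_one_div_lt (show (0 : ℝ) < r / 2 by linarith)
    obtain ⟨i, hi⟩ := hdense.exists_dist_lt y (show (0 : ℝ) < 1 / ((j : ℝ) + 1) by positivity)
    have hcb : closedBall (d i) (1 / ((j : ℝ) + 1)) ⊆ V := by
      intro z hz
      apply hrV
      rw [mem_ball]
      rw [mem_closedBall] at hz
      have := dist_triangle z (d i) y
      rw [dist_comm] at hi
      linarith
    have hxe : 0 < dist x e := dist_pos.2 hx
    obtain ⟨n, hn⟩ := (hκ0.eventually (gt_mem_nhds (show (0 : ℝ) < dist x e / 2 by linarith))).exists_forall_of_atTop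
    set k := Nat.pair (Nat.pair i j) n with hk
    have hkn : n ≤ k := Nat.right_le_pair _ _
    have hUk : U k = ball (d i) (1 / ((j : ℝ) + 1)) := by
      simp only [U, hk, Nat.unpair_pair]
    have hκk := hn k hkn
    -- the constraint
    have hmem : ∀ l, k + 1 ≤ l → cn (s k) k ∈ (s l).cs := by
      intro l hl
      induction l, hl using Nat.le_induction with
      | base => rw [hs, hcs]; exact List.mem_cons_self
      | succ l hl ih => rw [hs, hcs]; exact List.mem_cons_of_mem _ ih
    have hxK : x ∈ (cn (s k) k).K := by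
      rw [hcK]
      simp only [mem_compl_iff, mem_ball, not_lt]
      linarith
    set N := (cn (s k) k).N with hN
    have hgood : ∀ l, k + 1 ≤ l → ∃ a ≤ N, ((⇑(s l).f)^[a] x ∈ closedBall (d i) (1 / ((j : ℝ) + 1)) ∨
        (⇑(s l).f.symm)^[a] x ∈ closedBall (d i) (1 / ((j : ℝ) + 1))) := by
      intro l hl
      have hg := ((s l).hc _ (hmem l hl)).2.2.2.2.1
      have hUeq : (cn (s k) k).U = ball (d i) (1 / ((j : ℝ) + 1)) := by rw [hcU, hUk]
      rcases hg x hxK with ⟨a, ha, hau, -⟩ | ⟨a, ha, hau, -⟩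
      · rw [hUeq] at hau
        exact ⟨a, ha, Or.inl (ball_subset_closedBall hau)⟩
      · rw [hUeq] at hau
        exact ⟨a, ha, Or.inr (ball_subset_closedBall hau)⟩
    have hev : ∀ a ∈ Set.Iic N, ∀ᶠ l in atTop,
        (⇑(s l).f)^[a] x ∉ closedBall (d i) (1 / ((j : ℝ) + 1)) ∧
        (⇑(s l).f.symm)^[a] x ∉ closedBall (d i) (1 / ((j : ℝ) + 1)) := by
      intro a _
      have h1 := frozen_iter (fun k => ⇑(s k).f) F hFc hFu x a
      have h2 := frozen_iter (fun k => ⇑(s k).f.symm) G hGc hGu x a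
      have h3 := hcon a
      have h4 : F^[a] x ∈ (closedBall (d i) (1 / ((j : ℝ) + 1)))ᶜ := fun hh => h3.1 (hcb hh)
      have h5 : G^[a] x ∈ (closedBall (d i) (1 / ((j : ℝ) + 1)))ᶜ := fun hh => h3.2 (hcb hh)
      have h6 := h1.eventually (isClosed_closedBall.isOpen_compl.mem_nhds h4)
      have h7 := h2.eventually (isClosed_closedBall.isOpen_compl.mem_nhds h5)
      filter_upwards [h6, h7] with l hl hl'
      exact ⟨hl, hl'⟩
    have hall := (Filter.eventually_all_finite (Set.finite_Iic N)).2 hev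
    obtain ⟨l, hl1, hl2⟩ := (hall.and (eventually_ge_atTop (k + 1))).exists
    obtain ⟨a, ha, hh⟩ := hgood l hl2
    have := hl1 a ha
    tauto

end Frozen

end Pool.Agent.MinHomeo
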